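import Pool.Agent.N414.LR.Final

/-!
# Local W*-rigidity of icc groups with property (T)

Let `Γ` be an icc group with property (T).  There are a finite set `S ⊆ Γ` and `δ > 0` such that
the following holds for every group `Λ` and every trace preserving `*`-isomorphism
`θ : L(Γ) → L(Λ)`.  If for each `s ∈ S` the unitary `θ(u_s)` has a Fourier coefficient of modulus
at least `1 - δ`, then `θ` is of group type: there are an isomorphism of groups `φ : Γ → Λ`, a
character `χ` of `Γ` and a unitary `w ∈ L(Λ)` such that `θ(u_g) = χ(g) w u_{φ(g)} w*` for all `g`.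

Nothing is assumed on `Λ`, and only the finitely many unitaries `θ(u_s)`, `s ∈ S`, are restricted.
For a lattice `Γ` in a simple Lie group `G₁` of real rank at least two (which is icc and has
property (T)) and a lattice `Λ` in `G₂` this gives, with the strong rigidity theorem of Mostow and
Margulis, `G₁ ≅ G₂` whenever such an isomorphism `L(Γ) ≅ L(Λ)` exists.

As usual `ℓ²(G)` is a Hilbert space `H` with an orthonormal basis `(δ_g)` indexed by `G`, and
`L(G)` is the commutant of the right translations, i.e. the algebra of the bounded operators `T`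
for which `⟨δ_{tg}, T δ_{sg}⟩ = ⟨δ_t, T δ_s⟩`.

Written by helper414 (plan, statements, assembly) with the leaves of helpers 490, 614, 887, 747,
216, 426, 255, 335, 971, 2, 73, 277, 670, 499 and 11.
-/

set_option autoImplicit false

namespace Pool.Agent.Results.MP_0f6f3f_an.LocalRigidity

open Pool.Agent.H494R3.GT Pool.Agent.N557.QW

/-- all nontrivial conjugacy classes are infinite -/
def IsIcc (G : Type) [Group G] : Prop :=
  ∀ g : G, g ≠ 1 → {x : G | ∃ k : G, k * g * k⁻¹ = x}.Infinite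

/-- the bounded operators of a Hilbert space -/
abbrev Op (H : Type) [NormedAddCommGroup H] [InnerProductSpace ℂ H] : Type := H →L[ℂ] H

/-- `π` is a unitary representation of `G` on `H` -/
def IsURep {G H : Type} [Group G] [NormedAddCommGroup H] [InnerProductSpace ℂ H]
    (π : G → Op H) : Prop :=
  π 1 = 1 ∧ (∀ g h, π (g * h) = π g * π h) ∧ ∀ g v, ‖π g v‖ = ‖v‖

/-- Kazhdan's property (T): every unitary representation with almost invariant unit vectors has a
nonzero invariant vector -/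
def PropertyT (G : Type) [Group G] : Prop :=
  ∀ (H : Type) [NormedAddCommGroup H] [InnerProductSpace ℂ H] [CompleteSpace H]
    (π : G → Op H), IsURep π →
    (∀ (F : Finset G) (r : ℝ), 0 < r → ∃ v : H, ‖v‖ = 1 ∧ ∀ g ∈ F, ‖π g v - v‖ < r) →
    ∃ v : H, v ≠ 0 ∧ ∀ g, π g v = v

section
variable {G H : Type} [Group G] [NormedAddCommGroup H] [InnerProductSpace ℂ H]

/-- `T` belongs to the group von Neumann algebra `L(G)`: it commutes with the right
translations. -/
def InL (δ : HilbertBasis G ℂ H) (T : Op H) : Prop :=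
  ∀ g s t : G, inner ℂ (δ (t * g)) (T (δ (s * g))) = inner ℂ (δ t) (T (δ s))

/-- the Fourier coefficient of `T` at `g`; at `g = 1` this is the trace of `T ∈ L(G)` -/
noncomputable def coef (δ : HilbertBasis G ℂ H) (T : Op H) (g : G) : ℂ :=
  inner ℂ (δ g) (T (δ 1))

/-- `T` is the canonical unitary `u_g`, the left translation by `g` -/
def IsU (δ : HilbertBasis G ℂ H) (g : G) (T : Op H) : Prop := ∀ s, T (δ s) = δ (g * s)

end

section
variable {G G' H K : Type} [Group G] [Group G'] [NormedAddCommGroup H] [InnerProductSpace ℂ H]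
  [CompleteSpace H] [NormedAddCommGroup K] [InnerProductSpace ℂ K] [CompleteSpace K]
  (δ : HilbertBasis G ℂ H) (ε : HilbertBasis G' ℂ K) (θ : Op H → Op K)

/-- `θ` maps `L(G)` bijectively onto `L(G')` (values outside `L(G)` are irrelevant) -/
def Bij : Prop :=
  (∀ T, InL δ T → InL ε (θ T)) ∧ (∀ T, InL ε T → ∃ S, InL δ S ∧ θ S = T) ∧
    ∀ T S, InL δ T → InL δ S → θ T = θ S → T = S

omit [Group G'] [CompleteSpace H] [CompleteSpace K] in
/-- `θ` is additive on `L(G)` -/
def Add : Prop := ∀ T S, InL δ T → InL δ S → θ (T + S) = θ T + θ S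

omit [Group G'] [CompleteSpace H] [CompleteSpace K] in
/-- `θ` is homogeneous on `L(G)` -/
def Hom : Prop := ∀ (c : ℂ) (T : Op H), InL δ T → θ (c • T) = c • θ T

omit [Group G'] [CompleteSpace H] [CompleteSpace K] in
/-- `θ` is multiplicative on `L(G)` -/
def Mul : Prop := ∀ T S, InL δ T → InL δ S → θ (T * S) = θ T * θ S

omit [Group G'] in
/-- `θ` preserves adjoints on `L(G)` -/
def Sta : Prop := ∀ T, InL δ T → θ (star T) = star (θ T)

/-- `θ` is a `*`-isomorphism of `L(G)` onto `L(G')` which preserves the trace -/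
def IsTraceIso : Prop :=
  Bij δ ε θ ∧ Add δ θ ∧ Hom δ θ ∧ Mul δ θ ∧ Sta δ θ ∧
    ∀ T, InL δ T → coef ε (θ T) 1 = coef δ T 1

/-- each `θ(u_s)`, `s ∈ S`, has a Fourier coefficient of modulus at least `1 - d` -/
def AlmostGroupLike (S : Finset G) (d : ℝ) : Prop :=
  ∀ s ∈ S, ∀ T, IsU δ s T → ∃ h : G', 1 - d ≤ ‖coef ε (θ T) h‖

/-- `w` is a unitary of `L(G')` -/
def IsUnitary (w : Op K) : Prop := InL ε w ∧ star w * w = 1 ∧ w * star w = 1

/-- `θ(u_g) = χ(g) w u_{φ(g)} w*` for a group isomorphism `φ`, a character `χ` and a unitary `w`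
of `L(G')` -/
def IsOfGroupType : Prop :=
  ∃ (φ : G ≃* G') (χ : G →* ℂ) (w : Op K), (∀ g, ‖χ g‖ = 1) ∧ IsUnitary ε w ∧
    ∀ g T U, IsU δ g T → IsU ε (φ g) U → θ T = χ g • (w * U * star w)

end

lemma repr_dl {G H : Type} [NormedAddCommGroup H] [InnerProductSpace ℂ H]
    (δ : HilbertBasis G ℂ H) (g : G) : δ.repr (δ g) = dl g := by
  classical
  rw [HilbertBasis.repr_self, dl]

lemma repr_symm_dl {G H : Type} [NormedAddCommGroup H] [InnerProductSpace ℂ H]
    (δ : HilbertBasis G ℂ H) (g : G) : δ.repr.symm (dl g) = δ g := by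
  rw [← repr_dl δ, LinearIsometryEquiv.symm_apply_apply]

section
variable {G H : Type} [Group G] [NormedAddCommGroup H] [InnerProductSpace ℂ H]
  [CompleteSpace H]

/-- conjugation with `H ≃ ℓ²(G)` -/
noncomputable def cj (δ : HilbertBasis G ℂ H) : (H →L[ℂ] H) ≃⋆ₐ[ℂ] (L2 G →L[ℂ] L2 G) :=
  δ.repr.conjStarAlgEquiv

omit [Group G] in
lemma cj_star (δ : HilbertBasis G ℂ H) (T : H →L[ℂ] H) : cj δ (star T) = star (cj δ T) :=
  (cj δ).map_star' T

omit [Group G] in
lemma cj_inner (δ : HilbertBasis G ℂ H) (T : H →L[ℂ] H) (s t : G) :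
    inner ℂ (dl t) (cj δ T (dl s)) = inner ℂ (δ t) (T (δ s)) := by
  rw [cj, LinearIsometryEquiv.conjStarAlgEquiv_apply_apply, repr_symm_dl, ← repr_dl δ,
    LinearIsometryEquiv.inner_map_map]

lemma cf_cj (δ : HilbertBasis G ℂ H) (T : H →L[ℂ] H) (g : G) :
    cf (cj δ T) g = coef δ T g := cj_inner δ T 1 g

lemma inL_iff (δ : HilbertBasis G ℂ H) (T : H →L[ℂ] H) : InL δ T ↔ cj δ T ∈ LG G := by
  rw [mem_LG_iff]
  constructor
  · intro h s t
    rw [cj_inner, cf_cj, coef]
    have := h s 1 (t * s⁻¹)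
    rw [inv_mul_cancel_right, one_mul] at this
    exact this
  · intro h g s t
    rw [← cj_inner, ← cj_inner, h, h]
    congr 1
    group

lemma isU_iff (δ : HilbertBasis G ℂ H) (g : G) (T : H →L[ℂ] H) :
    IsU δ g T ↔ cj δ T = lam g := by
  constructor
  · intro h
    refine op_ext fun s => ?_
    rw [lam_dl, cj, LinearIsometryEquiv.conjStarAlgEquiv_apply_apply, repr_symm_dl, h s, repr_dl]
  · intro h s
    have := congrArg (fun A : L2 G →L[ℂ] L2 G => A (dl s)) h
    simp only [lam_dl] at this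
    rw [cj, LinearIsometryEquiv.conjStarAlgEquiv_apply_apply, repr_symm_dl, ← repr_dl δ] at this
    exact δ.repr.injective this

end

lemma hasT {G : Type} [Group G] (h : PropertyT G) : Pool.Agent.W661.RC.HasT G := by
  intro H _ _ _ π hπ
  refine h H (fun g => (π g : H →L[ℂ] H)) ⟨?_, ?_, ?_⟩ hπ
  · change ((π 1 : unitary (H →L[ℂ] H)) : H →L[ℂ] H) = 1
    rw [map_one]; rfl
  · intro g k
    change ((π (g * k) : unitary (H →L[ℂ] H)) : H →L[ℂ] H) = _
    rw [map_mul]; rfl
  · intro g v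
    exact Pool.Agent.N414.LR.Asm.norm_unit (π g) v

theorem result (Γ : Type) [Group Γ] (hicc : IsIcc Γ) (hT : PropertyT Γ) :
    ∃ (S : Finset Γ) (d : ℝ), 0 < d ∧ ∀ (Λ H K : Type) [Group Λ] [NormedAddCommGroup H]
      [InnerProductSpace ℂ H] [CompleteSpace H] [NormedAddCommGroup K] [InnerProductSpace ℂ K]
      [CompleteSpace K] (δ : HilbertBasis Γ ℂ H) (ε : HilbertBasis Λ ℂ K) (θ : Op H → Op K),
      IsTraceIso δ ε θ → AlmostGroupLike δ ε θ S d → IsOfGroupType δ ε θ := by
  obtain ⟨S, d, hd, h⟩ := Pool.Agent.N414.LR.Final.main Γ hicc (hasT hT)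
  refine ⟨S, d, hd, ?_⟩
  intro Λ H K _ _ _ _ _ _ _ δ ε θ ⟨⟨hmaps, honto, hinj⟩, hadd, hhom, hmul, hsta, htr⟩ hθ
  have hin : ∀ x : (LG Γ).toStarSubalgebra, InL δ ((cj δ).symm x) := fun x => by
    rw [inL_iff, StarAlgEquiv.apply_symm_apply]; exact x.2
  let f : (LG Γ).toStarSubalgebra → (LG Λ).toStarSubalgebra := fun x =>
    ⟨cj ε (θ ((cj δ).symm x)), (inL_iff ε _).1 (hmaps _ (hin x))⟩
  have hbij : Function.Bijective f := by
    constructor
    · intro x y hxy
      have h1 := congrArg Subtype.val hxy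
      have h2 := hinj _ _ (hin x) (hin y) ((cj ε).injective h1)
      exact Subtype.ext ((cj δ).symm.injective h2)
    · intro y
      obtain ⟨T, hT, hTy⟩ := honto ((cj ε).symm y)
        (by rw [inL_iff, StarAlgEquiv.apply_symm_apply]; exact y.2)
      refine ⟨⟨cj δ T, (inL_iff δ T).1 hT⟩, Subtype.ext ?_⟩
      change cj ε (θ ((cj δ).symm (cj δ T))) = y
      rw [StarAlgEquiv.symm_apply_apply, hTy, StarAlgEquiv.apply_symm_apply]
  let e : (LG Γ).toStarSubalgebra ≃⋆ₐ[ℂ] (LG Λ).toStarSubalgebra :=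
    { Equiv.ofBijective f hbij with
      map_mul' := fun x y => Subtype.ext (by
        change cj ε (θ ((cj δ).symm ((x : Pool.Agent.N414.LR.Op Γ) * y))) = _
        rw [map_mul, hmul _ _ (hin x) (hin y), map_mul]; rfl)
      map_add' := fun x y => Subtype.ext (by
        change cj ε (θ ((cj δ).symm ((x : Pool.Agent.N414.LR.Op Γ) + y))) = _
        rw [map_add, hadd _ _ (hin x) (hin y), map_add]; rfl)
      map_smul' := fun c x => Subtype.ext (by
        change cj ε (θ ((cj δ).symm (c • (x : Pool.Agent.N414.LR.Op Γ)))) = _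
        rw [map_smul, hhom c _ (hin x), map_smul]; rfl)
      map_star' := fun x => Subtype.ext (by
        change cj ε (θ ((cj δ).symm (star (x : Pool.Agent.N414.LR.Op Γ)))) = _
        rw [map_star, hsta _ (hin x), cj_star]; rfl) }
  have he : ∀ x, (e x : L2 Λ →L[ℂ] L2 Λ) = cj ε (θ ((cj δ).symm x)) := fun _ => rfl
  obtain ⟨φ, χ, w, hw, hu, hg⟩ := h Λ e (fun x => by
      rw [he, cf_cj, htr _ (hin x), ← cf_cj, StarAlgEquiv.apply_symm_apply])
    (fun s hs => by
      obtain ⟨k, hk⟩ := hθ s hs ((cj δ).symm (lam s))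
        (by rw [isU_iff, StarAlgEquiv.apply_symm_apply])
      exact ⟨k, by rw [he, cf_cj]; exact hk⟩)
  refine ⟨φ, (Submonoid.subtype _).comp χ, (cj ε).symm w, ?_, ⟨?_, ?_, ?_⟩, ?_⟩
  · intro g
    exact CStarRing.norm_of_mem_unitary (χ g).2
  · rw [inL_iff, StarAlgEquiv.apply_symm_apply]; exact hw
  · rw [← map_star, ← map_mul, (Unitary.mem_iff.1 hu).1, map_one]
  · rw [← map_star, ← map_mul, (Unitary.mem_iff.1 hu).2, map_one]
  · intro g T U hT hU
    have h1 : T = (cj δ).symm (lam g) := by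
      rw [← (isU_iff δ g T).1 hT, StarAlgEquiv.symm_apply_apply]
    have h2 : cj ε (θ T) = ((χ g : unitary ℂ) : ℂ) • (w * lam (φ g) * star w) := by
      rw [h1]; exact hg g
    apply (cj ε).injective
    change cj ε (θ T) = cj ε (((χ g : unitary ℂ) : ℂ) • ((cj ε).symm w * U *
      star ((cj ε).symm w)))
    rw [h2, map_smul, map_mul, map_mul, cj_star, StarAlgEquiv.apply_symm_apply,
      (isU_iff ε _ U).1 hU]

end Pool.Agent.Results.MP_0f6f3f_an.LocalRigidity
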